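import Pool.Agent.TwistedRatio.Free

open Pool.Agent.TwistedRatio

namespace Pool.Agent.Results.MP_dff590_al.TcrPositive

/-- The right-angled Artin group of a simple graph `Γ`: one generator for each vertex, and
generators of adjacent vertices commute. -/
def RAAG {V : Type*} (Γ : SimpleGraph V) : Type _ :=
  PresentedGroup {r : FreeGroup V | ∃ u v, Γ.Adj u v ∧
    r = FreeGroup.of u * FreeGroup.of v * (FreeGroup.of u)⁻¹ * (FreeGroup.of v)⁻¹}

instance {V : Type*} (Γ : SimpleGraph V) : Group (RAAG Γ) :=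
  inferInstanceAs (Group (PresentedGroup _))

theorem raag_bot (V : Type*) : Nonempty (RAAG (⊥ : SimpleGraph V) ≃* FreeGroup V) := by
  have h0 : {r : FreeGroup V | ∃ u v, (⊥ : SimpleGraph V).Adj u v ∧
      r = FreeGroup.of u * FreeGroup.of v * (FreeGroup.of u)⁻¹ * (FreeGroup.of v)⁻¹} = ∅ := by
    ext r
    simp
  have h1 : Subgroup.normalClosure {r : FreeGroup V | ∃ u v, (⊥ : SimpleGraph V).Adj u v ∧
      r = FreeGroup.of u * FreeGroup.of v * (FreeGroup.of u)⁻¹ * (FreeGroup.of v)⁻¹} = ⊥ := by
    rw [h0]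
    exact Subgroup.normalClosure_empty
  exact ⟨(QuotientGroup.quotientMulEquivOfEq h1).trans QuotientGroup.quotientBot⟩

/-- **Negative answer to Q2.**  Let `F` be the free group on a finite set `V` with at least two
elements (the right-angled Artin group of the edgeless graph on `V`; non-abelian), let `X` be
its standard basis and let `φ` be the endomorphism `v ↦ v ^ r`, `r ≥ 2`.  Then the twisted
conjugacy ratio `tcr_X(φ, F)` is positive. -/
theorem result (V : Type) [Finite V] [Nontrivial V] (r : ℕ) (hr : 2 ≤ r) :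
    (∃ a b : FreeGroup V, a * b ≠ b * a) ∧
    Nonempty (RAAG (⊥ : SimpleGraph V) ≃* FreeGroup V) ∧
    (Set.range (FreeGroup.of : V → FreeGroup V)).Finite ∧
    Subgroup.closure (Set.range (FreeGroup.of : V → FreeGroup V)) = ⊤ ∧
    0 < tcr (Set.range (FreeGroup.of : V → FreeGroup V))
      (FreeGroup.lift fun v => FreeGroup.of v ^ r) := by
  classical
  refine ⟨?_, raag_bot V, Set.finite_range _, ?_, free_tcr_pos r hr⟩
  · obtain ⟨a, b, hab⟩ := exists_pair_ne V
    refine ⟨FreeGroup.of a, FreeGroup.of b, ?_⟩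
    intro h
    have h1 := congrArg FreeGroup.toWord h
    rw [FreeGroup.of, FreeGroup.of, FreeGroup.mul_mk, FreeGroup.mul_mk, FreeGroup.toWord_mk,
      FreeGroup.toWord_mk] at h1
    rw [FreeGroup.IsReduced.reduce_eq, FreeGroup.IsReduced.reduce_eq] at h1
    · simp at h1
      exact hab h1.1
    · simp [FreeGroup.IsReduced]
    · simp [FreeGroup.IsReduced]
  · exact FreeGroup.closure_range_of V

end Pool.Agent.Results.MP_dff590_al.TcrPositive
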