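import Pool.Agent.TwistedRatio.Cox

open Pool.Agent.TwistedRatio

namespace Pool.Agent.Results.MP_dff590_al.TcrPositiveCoxeter

/-- **Negative answer to Q2 for Coxeter groups of non-affine type.**  Let `B` be a finite set with
at least three elements and let `W` be the universal Coxeter group on `B` (Coxeter matrix with all
off-diagonal entries `∞`, encoded as `0` in Mathlib).  Then `W` is not virtually abelian, the set
`S` of simple reflections is a finite generating set, and for every map `c : B → B` without fixed
points there is an endomorphism `φ` of `W` with `φ(s) = s c(s) s` for all `s`, and for it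
`tcr_S(φ, W) > 0`. -/
theorem result (B : Type) [DecidableEq B] [Finite B] (hB : 3 ≤ Nat.card B) :
    (∀ i j : B, i ≠ j → (univMatrix B) i j = 0) ∧
    (∀ H : Subgroup (univMatrix B).Group, H.FiniteIndex → ∃ x ∈ H, ∃ y ∈ H, x * y ≠ y * x) ∧
    (Set.range (univMatrix B).simple).Finite ∧
    Subgroup.closure (Set.range (univMatrix B).simple) = ⊤ ∧
    ∀ c : B → B, (∀ s, c s ≠ s) → ∃ φ : (univMatrix B).Group →* (univMatrix B).Group,
      (∀ s, φ ((univMatrix B).simple s) =
        (univMatrix B).simple s * (univMatrix B).simple (c s) * (univMatrix B).simple s) ∧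
      0 < tcr (Set.range (univMatrix B).simple) φ := by
  refine ⟨fun i j h => univMatrix_ne h, ?_, Set.finite_range _, ?_, ?_⟩
  · intro H hH
    have := Fintype.ofFinite B
    rw [Nat.card_eq_fintype_card] at hB
    obtain ⟨a, b, c, hab, hac, hbc⟩ := Fintype.two_lt_card_iff.1 hB
    exact cox_not_virt_abelian a b c hab hac hbc H
  · have := (univMatrix B).toCoxeterSystem.subgroup_closure_range_simple
    rwa [CoxeterMatrix.toCoxeterSystem_simple] at this
  · intro c hc
    obtain ⟨φ, hφ⟩ := exists_endo c
    exact ⟨φ, hφ, cox_tcr_pos hB c hc φ hφ⟩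

end Pool.Agent.Results.MP_dff590_al.TcrPositiveCoxeter
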