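import Pool.Agent.AcylTdc4.FinalL

/-!
# MP_dff590_al, Q1: acylindrically hyperbolic groups times a group of subexponential growth

Let `G` be the direct product of finitely many groups `H i`, one of which, `V = H v₀`, is finitely
generated of subexponential growth, while all the others (at least one) are acylindrically
hyperbolic; if there are at least two acylindrically hyperbolic factors, let `V` have at most linear
growth (for instance `V` trivial, finite or infinite cyclic). For every finite generating set `X` of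
`G` and every endomorphism `φ` of `G` the proportion of the pairs `(x, y)` in the square of the ball
of radius `n` with `x y = y φ(x)` tends to `0`.
-/

open Filter Topology Set Pool.Agent.TwistedRatio

namespace Pool.Agent.Results.MP_dff590_al.TdcZeroMixed

theorem result.{u, v, w} {ι : Type w} [Finite ι] {H : ι → Type u} [∀ i, Group (H i)] (v₀ : ι)
    (hne : ∃ i, i ≠ v₀) (hH : ∀ i, i ≠ v₀ → Pool.Agent.AcylTdc.AcylHyp.{u, v} (H i))
    (hV : Pool.Agent.AcylTdc2.SubexpGrowth (H v₀))
    (hlin : (∀ i j : ι, i ≠ v₀ → j ≠ v₀ → i = j) ∨ Pool.Agent.AcylTdc4.LinGrowth (H v₀))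
    {X : Set (∀ i, H i)} (hX : X.Finite) (hgen : Subgroup.closure X = ⊤)
    (φ : (∀ i, H i) →* (∀ i, H i)) :
    tdc X φ = 0 ∧ Tendsto (fun n : ℕ =>
      (({p : (∀ i, H i) × (∀ i, H i) | p.1 ∈ ball X n ∧ p.2 ∈ ball X n ∧
        p.1 * p.2 = p.2 * φ p.1}).ncard : ℝ) / ((ball X n).ncard : ℝ) ^ 2) atTop (𝓝 0) :=
  Pool.Agent.AcylTdc4.tdc_pi_lin v₀ hne hH hV hlin hX hgen φ

end Pool.Agent.Results.MP_dff590_al.TdcZeroMixed
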